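import Pool.Agent.H19.WaveH

set_option autoImplicit false

namespace Pool.Agent.Results.MP_4c4330_an.Line

open Pool.Agent.H19.Wave

/-- On an interval, every nontrivial classical solution of the damped wave equation (written in
its odd periodic extension) has energy of exact order `(1 + t) ^ (-2 / α)`. -/
theorem result (L a α : ℝ) (hL : 0 < L) (ha : 0 < a) (hα : 0 < α) (u : ℝ → ℝ → ℝ)
    (hu : ContDiff ℝ 2 fun z : ℝ × ℝ => u z.1 z.2) (ho : ∀ t x, u t (-x) = - u t x)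
    (hp : ∀ t x, u t (x + 2 * L) = u t x)
    (he : ∀ t, 0 ≤ t → ∀ x, dT (dT u) t x - dX (dX u) t x + a * |dT u t x| ^ α * dT u t x = 0)
    (hn : ∃ x, u 0 x ≠ 0 ∨ dT u 0 x ≠ 0) :
    ∃ c C : ℝ, 0 < c ∧ ∀ t, 0 ≤ t →
      c * (1 + t) ^ (-2 / α) ≤ En L u t ∧ En L u t ≤ C * (1 + t) ^ (-2 / α) :=
  allsol hL ha hα u hu ho hp he hn

end Pool.Agent.Results.MP_4c4330_an.Line
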